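import Mathlib

set_option autoImplicit false

namespace Pool.Agent.Results.MP_8916ec_co.RankDim

open Set

variable {Y : Type} {l : ℕ}

/-- the finite-valued elements of the semimodule generated by the `g j` -/
inductive Gen (g : Fin l → Y → ℝ) : (Y → ℝ) → Prop
  | gen (j : Fin l) : Gen g (g j)
  | add {f : Y → ℝ} (c : ℝ) : Gen g f → Gen g (fun x => f x + c)
  | min {f f' : Y → ℝ} : Gen g f → Gen g f' → Gen g (fun x => min (f x) (f' x))

/-- tropical dependence, real coefficients -/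
def DepR {ι : Type} (F : ι → Y → ℝ) : Prop :=
  ∃ c : ι → ℝ, ∀ x, ∃ i j, i ≠ j ∧ F i x + c i = F j x + c j ∧ ∀ k, F i x + c i ≤ F k x + c k

/-- tropical dependence, coefficients in `ℝ ∪ {∞}`, not all `∞` -/
def DepT {ι : Type} (F : ι → Y → ℝ) : Prop :=
  ∃ c : ι → WithTop ℝ, (∃ i, c i ≠ ⊤) ∧ ∀ x, ∃ i j, i ≠ j ∧
    (F i x : WithTop ℝ) + c i = F j x + c j ∧ ∀ k, (F i x : WithTop ℝ) + c i ≤ F k x + c k

def ranksR (g : Fin l → Y → ℝ) : Set ℕ :=
  {r | ∃ F : Fin r → Y → ℝ, (∀ i, Gen g (F i)) ∧ ¬ DepR F}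

def ranksT (g : Fin l → Y → ℝ) : Set ℕ :=
  {r | ∃ F : Fin r → Y → ℝ, (∀ i, Gen g (F i)) ∧ ¬ DepT F}

noncomputable def Ψ (g : Fin l → Y → ℝ) (c : Fin l → ℝ) : Y → ℝ := fun x => ⨅ j, (g j x + c j)

/-- the largest `l - dim (fibre)` over the nonempty fibres of `Ψ` -/
noncomputable def dimM (g : Fin l → Y → ℝ) : ENNReal :=
  ⨆ f ∈ range (Ψ g), ((l : ENNReal) - dimH (Ψ g ⁻¹' {f}))

def Cert {ι : Type} (F : ι → Y → ℝ) (c : ι → ℝ) : Prop :=
  ∀ i, ∃ x, ∀ j, j ≠ i → F i x + c i < F j x + c j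

lemma Cert.indep {ι : Type} [Finite ι] {F : ι → Y → ℝ} {c : ι → ℝ} (h : Cert F c) : ¬ DepT F := by
  rintro ⟨d, ⟨i0, h0⟩, hd⟩
  obtain ⟨i, hi⟩ := (@Finite.exists_min ι _ _ ⟨i0⟩ _ fun i => d i + ((-c i : ℝ) : WithTop ℝ))
  obtain ⟨x, hx⟩ := h i
  have ti : d i ≠ ⊤ := fun e => by
    have := hi i0
    rw [e, top_add, top_le_iff, WithTop.add_eq_top] at this
    simp [h0] at this
  obtain ⟨a, ha⟩ := WithTop.ne_top_iff_exists.1 ti
  have key : ∀ j, j ≠ i → (F i x : WithTop ℝ) + d i < F j x + d j := fun j hj => by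
    have h1 := hi j
    have h2 := hx j hj
    rw [← ha] at h1 ⊢
    cases e : d j with
    | top => simp [← WithTop.coe_add]
    | coe b =>
      rw [e] at h1
      norm_cast at h1 ⊢
      linarith
  obtain ⟨p, q, pq, e, m⟩ := hd x
  by_cases u : p = i
  · subst u; exact (key q pq.symm).ne e
  · exact absurd (m i) (not_le.2 (key p u))

lemma cert_of {ι : Type} [Fintype ι] {F : ι → Y → ℝ} (h : ¬ DepT F) : ∃ c, Cert F c := by
  classical
  let S : Set (ι → ℝ) := {c | ∀ i, c i ≤ 0 ∨ ∃ x, ∀ j, j ≠ i → F i x + c i < F j x + c j}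
  have up : ∀ c ∈ S, ∀ c' : ι → ℝ, c ≤ c' → ∀ i, c' i = c i →
      c' i ≤ 0 ∨ ∃ x, ∀ j, j ≠ i → F i x + c' i < F j x + c' j := fun c hc c' le i e => by
    rw [e]
    exact (hc i).imp id fun ⟨x, hx⟩ => ⟨x, fun j hj => by linarith [hx j hj, le j]⟩
  have fin : ∀ (a : ι → ℝ) (J : Finset ι), (∀ j ∈ J, ∃ c ∈ S, a j < c j) →
      ∃ c ∈ S, ∀ j ∈ J, a j < c j := fun a J => by
    induction J using Finset.induction_on with
    | empty => exact fun _ => ⟨0, fun i => Or.inl le_rfl, by simp⟩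
    | insert j J _ ih =>
      intro hJ
      obtain ⟨c, hc, h1⟩ := ih fun k hk => hJ k (Finset.mem_insert_of_mem hk)
      obtain ⟨c', hc', h2⟩ := hJ j (Finset.mem_insert_self _ _)
      refine ⟨c ⊔ c', fun i => ?_, fun k hk => ?_⟩
      · rcases le_total (c i) (c' i) with e | e
        · exact up c' hc' _ le_sup_right i (sup_eq_right.2 e)
        · exact up c hc _ le_sup_left i (sup_eq_left.2 e)
      · rcases Finset.mem_insert.1 hk with rfl | hk
        · exact h2.trans_le le_sup_right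
        · exact (h1 k hk).trans_le le_sup_left
  by_cases h1 : ∀ j, ∃ c ∈ S, (0 : ℝ) < c j
  · obtain ⟨c, hc, h2⟩ := fin 0 Finset.univ fun j _ => h1 j
    exact ⟨c, fun i => (hc i).resolve_left (not_le.2 (h2 i (Finset.mem_univ _)))⟩
  exfalso
  push Not at h1
  obtain ⟨i0, h0⟩ := h1
  let B : ι → Prop := fun i => BddAbove ((fun c : ι → ℝ => c i) '' S)
  let s : ι → ℝ := fun i => sSup ((fun c : ι → ℝ => c i) '' S)
  have ne : ∀ i, ((fun c : ι → ℝ => c i) '' S).Nonempty :=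
    fun i => ⟨_, 0, fun i => Or.inl le_rfl, rfl⟩
  have key : ∀ x i, B i → ∃ j, j ≠ i ∧ B j ∧ F j x + s j ≤ F i x + s i := by
    intro x i hi
    by_contra hn
    push Not at hn
    obtain ⟨c, hc, h2⟩ := fin (fun j => F i x + s i - F j x) (Finset.univ.erase i) fun j hj => by
      have hj := (Finset.mem_erase.1 hj).1
      by_cases b : B j
      · obtain ⟨_, ⟨c, hc, rfl⟩, e⟩ := exists_lt_of_lt_csSup (ne j)
          (show F i x + s i - F j x < s j by linarith [hn j hj b])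
        exact ⟨c, hc, e⟩
      · obtain ⟨_, ⟨c, hc, rfl⟩, e⟩ := not_bddAbove_iff.1 b (F i x + s i - F j x)
        exact ⟨c, hc, e⟩
    obtain ⟨t, t1, t2⟩ : ∃ t, s i < t ∧ ∀ j ∈ Finset.univ.erase i, t < F j x + c j - F i x := by
      have : ∀ᶠ t in nhds (s i), ∀ j ∈ Finset.univ.erase i, t < F j x + c j - F i x :=
        (Filter.eventually_all_finset _).2 fun j hj => gt_mem_nhds (by linarith [h2 j hj])
      obtain ⟨t, a, b⟩ := ((frequently_gt_nhds (s i)).and_eventually this).exists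
      exact ⟨t, a, b⟩
    have ci : c i ≤ s i := le_csSup hi ⟨c, hc, rfl⟩
    have : Function.update c i t ∈ S := fun k => by
      by_cases e : k = i
      · subst e
        refine Or.inr ⟨x, fun j hj => ?_⟩
        have := t2 j (by simp [hj])
        rw [Function.update_self, Function.update_of_ne hj]
        linarith
      · exact up c hc _ (le_update_self_iff.2 (by linarith)) k (Function.update_of_ne e _ _)
    have := le_csSup hi ⟨_, this, rfl⟩
    simp only [Function.update_self] at this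
    exact absurd t1 (not_lt.2 this)
  have b0 : B i0 := ⟨0, by rintro _ ⟨c, hc, rfl⟩; exact h0 c hc⟩
  refine h ⟨fun i => if B i then (s i : WithTop ℝ) else ⊤, ⟨i0, by simp [b0]⟩, fun x => ?_⟩
  obtain ⟨i, hi, hm⟩ := Finset.exists_min_image (Finset.univ.filter B) (fun i => F i x + s i)
    ⟨i0, by simpa using b0⟩
  simp only [Finset.mem_filter, Finset.mem_univ, true_and] at hi hm
  obtain ⟨j, j1, j2, j3⟩ := key x i hi
  refine ⟨i, j, j1.symm, ?_, fun k => ?_⟩
  · simp only [if_pos hi, if_pos j2]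
    exact_mod_cast le_antisymm (hm j j2) j3
  · by_cases b : B k
    · simp only [if_pos hi, if_pos b]
      exact_mod_cast hm k b
    · simp [b]

variable [NeZero l] {g : Fin l → Y → ℝ}

omit [NeZero l] in
lemma Ψ_le (c : Fin l → ℝ) (x : Y) (j : Fin l) : Ψ g c x ≤ g j x + c j :=
  ciInf_le (Finite.bddBelow_range fun j => g j x + c j) j

lemma Ψ_eq (c : Fin l → ℝ) (x : Y) : ∃ j, g j x + c j = Ψ g c x :=
  exists_eq_ciInf_of_finite

lemma Ψ_of {c : Fin l → ℝ} {x : Y} {a : ℝ} (h1 : ∀ j, a ≤ g j x + c j) (h2 : ∃ j, g j x + c j = a) :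
    Ψ g c x = a := by
  obtain ⟨j, e⟩ := h2
  exact le_antisymm (e ▸ Ψ_le c x j) (le_ciInf h1)

lemma approx {Z : Type} (z : Z → Y) (hb : ∀ i j, ∃ K, ∀ p, g i (z p) - g j (z p) ≤ K) {f : Y → ℝ}
    (h : Gen g f) : ∃ c, ∀ p, Ψ g c (z p) = f (z p) := by
  induction h with
  | gen j =>
    choose K hK using hb j
    refine ⟨Function.update K j 0, fun p => Ψ_of (fun i => ?_) ⟨j, by simp⟩⟩
    by_cases e : i = j
    · simp [e]
    · rw [Function.update_of_ne e]; linarith [hK i p]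
  | add a _ ih =>
    obtain ⟨c, hc⟩ := ih
    refine ⟨fun j => c j + a, fun p => Ψ_of (fun i => ?_) ?_⟩
    · linarith [Ψ_le (g := g) c (z p) i, hc p]
    · obtain ⟨j, e⟩ := Ψ_eq (g := g) c (z p)
      exact ⟨j, by linarith [hc p]⟩
  | min _ _ ih ih' =>
    obtain ⟨c, hc⟩ := ih
    obtain ⟨c', hc'⟩ := ih'
    refine ⟨fun j => min (c j) (c' j), fun p => ?_⟩
    beta_reduce
    rw [← hc, ← hc']
    have h1 : ∀ i, min (Ψ g c (z p)) (Ψ g c' (z p)) ≤ g i (z p) + min (c i) (c' i) := fun i => by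
      rw [← min_add_add_left]
      exact min_le_min (Ψ_le _ _ _) (Ψ_le _ _ _)
    refine le_antisymm (le_min ?_ ?_) (le_ciInf h1)
    · obtain ⟨j, e⟩ := Ψ_eq (g := g) c (z p)
      exact (Ψ_le _ _ j).trans (by linarith [min_le_left (c j) (c' j)])
    · obtain ⟨j, e⟩ := Ψ_eq (g := g) c' (z p)
      exact (Ψ_le _ _ j).trans (by linarith [min_le_right (c j) (c' j)])

def ext (T : Finset (Fin l)) (a : Fin l → ℝ) (y : (Tᶜ : Finset (Fin l)) → ℝ) (j : Fin l) : ℝ :=
  if h : j ∈ Tᶜ then y ⟨j, h⟩ else a j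

omit [NeZero l] in
lemma ext_iso (T : Finset (Fin l)) (a : Fin l → ℝ) : Isometry (ext T a) := by
  refine Isometry.of_dist_eq fun y y' => le_antisymm ?_ ?_
  · refine (dist_pi_le_iff dist_nonneg).2 fun j => ?_
    unfold ext
    split_ifs with h
    · exact dist_le_pi_dist _ _ _
    · simp
  · refine (dist_pi_le_iff dist_nonneg).2 fun j => ?_
    have := dist_le_pi_dist (ext T a y) (ext T a y') j.1
    simpa only [ext, dif_pos j.2] using this

lemma upper (c : Fin l → ℝ) : ∃ r ∈ ranksT g, (l : ENNReal) ≤ r + dimH (Ψ g ⁻¹' {Ψ g c}) := by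
  classical
  obtain ⟨T, hT, hm⟩ := Finset.exists_min_image
    (Finset.univ.filter fun T : Finset (Fin l) => ∀ x, ∃ j ∈ T, g j x + c j = Ψ g c x) Finset.card
    ⟨Finset.univ, by simpa using Ψ_eq c⟩
  simp only [Finset.mem_filter, Finset.mem_univ, true_and] at hT hm
  refine ⟨T.card, ⟨fun i => g (T.equivFin.symm i), fun i => .gen _,
    Cert.indep (c := fun i => c (T.equivFin.symm i)) fun i => ?_⟩, ?_⟩
  · by_contra hn
    push Not at hn
    have := hm (T.erase (T.equivFin.symm i)) fun x => by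
      obtain ⟨j, hj, e⟩ := hT x
      by_cases u : j = T.equivFin.symm i
      · obtain ⟨k, k1, k2⟩ := hn x
        refine ⟨T.equivFin.symm k, Finset.mem_erase.2 ⟨fun q => k1 ?_, Finset.coe_mem _⟩,
          le_antisymm (by rw [← e, u]; exact k2) (Ψ_le _ _ _)⟩
        exact T.equivFin.symm.injective (Subtype.ext q)
      · exact ⟨j, Finset.mem_erase.2 ⟨u, hj⟩, e⟩
    exact absurd this (not_le.2 (Finset.card_erase_lt_of_mem (Finset.coe_mem _)))
  · have sub : ext T c '' Ici (fun j => c j.1) ⊆ Ψ g ⁻¹' {Ψ g c} := by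
      rintro _ ⟨y, hy, rfl⟩
      ext x
      refine Ψ_of (fun j => (Ψ_le c x j).trans ?_) ?_
      · unfold ext
        split_ifs with h
        · linarith [hy ⟨j, h⟩]
        · exact le_rfl
      · obtain ⟨j, hj, e⟩ := hT x
        exact ⟨j, by rw [ext, dif_neg (by simpa using hj), e]⟩
    have h1 := dimH_mono sub
    rw [(ext_iso T c).dimH_image, Real.dimH_of_mem_nhds (x := fun j => c j.1 + 1)
      (pi_Ici_mem_nhds fun j => by simp), Module.finrank_fintype_fun_eq_card, Fintype.card_coe,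
      Finset.card_compl, Fintype.card_fin] at h1
    refine le_trans ?_ (add_le_add le_rfl h1)
    have := T.card_le_univ
    rw [Fintype.card_fin] at this
    norm_cast
    omega

lemma lower {r : ℕ} (h : r ∈ ranksT g) :
    r ≤ l ∧ ∃ c, dimH (Ψ g ⁻¹' {Ψ g c}) ≤ (l - r : ℕ) := by
  classical
  obtain ⟨F, hF, hd⟩ := h
  obtain ⟨c, hc⟩ := cert_of hd
  choose z hz using hc
  have ev : ∀ᶠ t : ℝ in nhds 0, ∀ i j : Fin r, j ≠ i →
      F i (z i) + c i + i * t < F j (z i) + c j + j * t := by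
    simp only [Filter.eventually_all]
    intro i j hj
    exact ContinuousAt.eventually_lt (by fun_prop) (by fun_prop) (by simpa using hz i j hj)
  obtain ⟨t, t1, t2⟩ := (infinite_of_mem_nhds _ ev).exists_notMem_finite
    (finite_range fun p : Fin l × Fin r × Fin r => (g p.1 (z p.2.1) - g p.1 (z p.2.2)
      - (F p.2.1 (z p.2.1) + c p.2.1) + (F p.2.2 (z p.2.2) + c p.2.2)) / (p.2.1 - p.2.2))
  have hb : ∀ i j, ∃ K, ∀ p, g i (z p) - g j (z p) ≤ K := fun i j => by
    obtain ⟨K, hK⟩ := Finite.bddAbove_range fun p => g i (z p) - g j (z p)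
    exact ⟨K, fun p => hK ⟨p, rfl⟩⟩
  choose d hd' using fun i => approx z hb ((hF i).add (c i + i * t))
  obtain ⟨e, he⟩ : ∃ e, ∀ i, Ψ g e (z i) = F i (z i) + c i + i * t := by
    rcases isEmpty_or_nonempty (Fin r) with q | q
    · exact ⟨0, fun i => q.elim i⟩
    refine ⟨fun j => ⨅ i, d i j, fun i => le_antisymm ?_ (le_ciInf fun j => ?_)⟩
    · obtain ⟨j, ej⟩ := Ψ_eq (g := g) (d i) (z i)
      have := ciInf_le (Finite.bddBelow_range fun i => d i j) i
      linarith [Ψ_le (g := g) (fun j => ⨅ i, d i j) (z i) j, hd' i i]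
    · obtain ⟨k, ek⟩ := exists_eq_ciInf_of_finite (f := fun i => d i j)
      have := Ψ_le (g := g) (d k) (z i) j
      rw [hd', ek] at this
      by_cases u : k = i
      · subst u; linarith
      · linarith [t1 i k u]
  have key : ∀ c' ∈ Ψ g ⁻¹' {Ψ g e}, ∃ φ : Fin r ↪ Fin l, ∀ i,
      c' (φ i) = Ψ g e (z i) - g (φ i) (z i) := fun c' hc' => by
    choose φ hφ using fun i => Ψ_eq (g := g) c' (z i)
    rw [show Ψ g c' = Ψ g e from hc'] at hφ
    refine ⟨⟨φ, fun i k q => ?_⟩, fun i => eq_sub_of_add_eq' (hφ i)⟩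
    by_contra u
    apply t2
    refine ⟨(φ i, i, k), ?_⟩
    have a1 := hφ i
    have a2 := hφ k
    rw [he] at a1 a2
    rw [← q] at a2
    have : ((i : ℕ) : ℝ) - (k : ℕ) ≠ 0 := sub_ne_zero.2 fun v => u (Fin.ext (by exact_mod_cast v))
    simp only
    rw [div_eq_iff this]
    linarith
  obtain ⟨φ0, -⟩ := key e rfl
  refine ⟨by simpa using Fintype.card_le_of_embedding φ0, e, ?_⟩
  have sub : Ψ g ⁻¹' {Ψ g e} ⊆ ⋃ φ : Fin r ↪ Fin l, range (ext (Finset.univ.map φ)
      (Function.extend φ (fun i => Ψ g e (z i) - g (φ i) (z i)) 0)) := fun c' hc' => by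
    obtain ⟨φ, hφ⟩ := key c' hc'
    refine mem_iUnion.2 ⟨φ, fun j => c' j.1, funext fun j => ?_⟩
    unfold ext
    split_ifs with u
    · rfl
    · simp only [Finset.mem_compl, Finset.mem_map, Finset.mem_univ, true_and, not_not] at u
      obtain ⟨i, rfl⟩ := u
      rw [φ.injective.extend_apply, hφ]
  refine (dimH_mono sub).trans ?_
  rw [dimH_iUnion]
  refine iSup_le fun φ => ?_
  rw [← image_univ, (ext_iso _ _).dimH_image, Real.dimH_univ_pi, Fintype.card_coe,
    Finset.card_compl]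
  simp

lemma depR {r : ℕ} {F : Fin r → Y → ℝ} (hF : ∀ i, F i ∈ range (Ψ g)) (h : DepT F) : DepR F := by
  obtain ⟨c, ⟨i0, h0⟩, hc⟩ := h
  obtain ⟨a, ha⟩ := WithTop.ne_top_iff_exists.1 h0
  choose d hd using hF
  have K : ∀ k x, F i0 x ≤ F k x + dist (d i0) (d k) := fun k x => by
    obtain ⟨j, e⟩ := Ψ_eq (g := g) (d k) x
    have h1 := Ψ_le (g := g) (d i0) x j
    have h2 := dist_le_pi_dist (d i0) (d k) j
    rw [Real.dist_eq] at h2
    rw [hd] at e h1
    linarith [le_abs_self (d i0 j - d k j)]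
  refine ⟨fun k => (c k).untopD (a + dist (d i0) (d k)), fun x => ?_⟩
  obtain ⟨i, j, ij, e, m⟩ := hc x
  have m0 := m i0
  rw [← ha] at m0
  cases ei : c i with
  | top => simp [ei, ← WithTop.coe_add] at m0
  | coe u =>
    rw [ei] at e m m0
    cases ej : c j with
    | top => simp [ej] at e
    | coe v =>
      rw [ej] at e
      norm_cast at e m0
      refine ⟨i, j, ij, by simpa [ei, ej] using e, fun k => ?_⟩
      have mk := m k
      cases ek : c k with
      | top => simp only [ei, ek, WithTop.untopD_coe, WithTop.untopD_top]; linarith [K k x]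
      | coe w =>
        rw [ek] at mk
        norm_cast at mk
        simpa [ei, ek] using mk

theorem result :
    (∀ (Y : Type) [Nonempty Y] (l : ℕ) [NeZero l] (g : Fin l → Y → ℝ), ∃ D : ℕ,
      dimM g = D ∧ IsGreatest (ranksT g) D ∧
      ((∀ f, Gen g f → f ∈ range (Ψ g)) → IsGreatest (ranksR g) D)) ∧
    (∀ (Y : Type) [TopologicalSpace Y] [CompactSpace Y] (l : ℕ) [NeZero l] (g : Fin l → Y → ℝ),
      (∀ j, Continuous (g j)) → ∀ f, Gen g f → f ∈ range (Ψ g)) ∧
    ∀ r, r + 1 ∈ ranksR (![fun _ => 0, fun x => -x.1] : Fin 2 → Ici (0 : ℝ) → ℝ) := by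
  refine ⟨fun Y hY l _ g => ?_, fun Y _ _ l _ g hg f hf => ?_, fun r => ?_⟩
  · have bd : BddAbove (ranksT g) := ⟨l, fun r h => (lower h).1⟩
    obtain ⟨r0, h0, -⟩ := upper (g := g) 0
    have hD : IsGreatest (ranksT g) (sSup (ranksT g)) :=
      ⟨Nat.sSup_mem ⟨r0, h0⟩ bd, fun r h => le_csSup bd h⟩
    refine ⟨_, le_antisymm (iSup₂_le ?_) ?_, hD, fun hs => ⟨?_, ?_⟩⟩
    · rintro _ ⟨c, rfl⟩
      obtain ⟨r, h1, h2⟩ := upper (g := g) c
      exact tsub_le_iff_right.2 (h2.trans (add_le_add (Nat.cast_le.2 (hD.2 h1)) le_rfl))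
    · obtain ⟨h1, c, h2⟩ := lower hD.1
      refine le_iSup₂_of_le (Ψ g c) ⟨c, rfl⟩ (le_trans ?_ (tsub_le_tsub_left h2 _))
      rw [← ENNReal.natCast_sub, Nat.cast_le]
      omega
    · obtain ⟨F, h1, h2⟩ := hD.1
      refine ⟨F, h1, fun ⟨c, hc⟩ => ?_⟩
      obtain ⟨i, -⟩ := hc hY.some
      refine h2 ⟨fun i => c i, ⟨i, by simp⟩, fun x => ?_⟩
      beta_reduce
      exact_mod_cast hc x
    · rintro r ⟨F, h1, h2⟩
      exact hD.2 ⟨F, h1, fun h => h2 (depR (fun i => hs _ (h1 i)) h)⟩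
  · obtain ⟨c, hc⟩ := approx (g := g) id (fun i j => by
      obtain ⟨K, hK⟩ := (isCompact_range ((hg i).sub (hg j))).bddAbove
      exact ⟨K, fun p => hK ⟨p, rfl⟩⟩) hf
    exact ⟨c, funext hc⟩
  · refine ⟨Fin.cons (fun x => -x.1) fun i _ => 0 + (i : ℝ), fun i => ?_, ?_⟩
    · refine Fin.cases (.gen 1) (fun i => .add _ (.gen 0)) i
    · rintro ⟨c, hc⟩
      obtain ⟨K, hK⟩ := Finite.bddAbove_range fun i => c 0 - c i
      have k0 : 0 ≤ K := by simpa using hK ⟨0, rfl⟩
      obtain ⟨i, j, ij, e, m⟩ := hc ⟨K + 1, by simp only [mem_Ici]; linarith⟩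
      have m0 := m 0
      have key : ∀ k : Fin (r + 1), k ≠ 0 → -(K + 1) + c 0 <
          (Fin.cons (fun x => -x.1) fun i _ => 0 + (i : ℝ) : Fin (r + 1) → Ici (0 : ℝ) → ℝ) k
            ⟨K + 1, by simp only [mem_Ici]; linarith⟩ + c k := fun k hk => by
        obtain ⟨k, rfl⟩ := Fin.exists_succ_eq.2 hk
        have : c 0 - c k.succ ≤ K := hK ⟨_, rfl⟩
        have : (0 : ℝ) ≤ (k : ℕ) := Nat.cast_nonneg _
        simp only [Fin.cons_succ]
        linarith
      simp only [Fin.cons_zero] at m0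
      by_cases u : i = 0
      · subst u
        have := key j ij.symm
        rw [← e] at this
        exact lt_irrefl _ this
      · exact absurd m0 (not_le.2 (key i u))

end Pool.Agent.Results.MP_8916ec_co.RankDim
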